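import Pool.Agent.W186.AI.Spec

set_option autoImplicit false

namespace Pool.Agent.W879.AI.TRG

open Complex Filter Topology Metric Set Polynomial
open scoped Real
open Pool.Agent.W186.AI

theorem key (θ : ℂ) (n d : ℕ) :
    cexp (θ * I) ^ (2 * (n + d) + 2 + 2 * n) - cexp (θ * I) ^ (2 * d) =
      cexp (θ * I) ^ (2 * (n + d) + 1) * (2 * I * Complex.sin ((2 * (n : ℂ) + 1) * θ)) := by
  have h1 : ∀ k : ℕ, cexp (θ * I) ^ k = cexp ((k : ℂ) * (θ * I)) := fun k =>
    (Complex.exp_nat_mul _ k).symm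
  have h2 : (2 * I * Complex.sin ((2 * (n : ℂ) + 1) * θ)) =
      cexp ((2 * (n : ℂ) + 1) * θ * I) - cexp (-((2 * (n : ℂ) + 1) * θ) * I) := by
    rw [Complex.sin]
    ring_nf
    rw [Complex.I_sq]
    ring
  rw [h2, h1, h1, h1, mul_sub, ← Complex.exp_add, ← Complex.exp_add]
  congr 2
  · push_cast
    ring
  · push_cast
    ring

theorem main : S_TRG := by
  classical
  intro m n hn r hr
  obtain ⟨M, hM⟩ : ∃ M : ℕ, ∀ i, n i ≤ M :=
    ⟨∑ i, n i, fun i => Finset.single_le_sum (f := n) (fun _ _ => Nat.zero_le _) (Finset.mem_univ i)⟩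
  set N : ℕ := 4 * M + 3 with hN
  set L : ℝ := Real.log ((Nat.nth Nat.Prime N : ℕ) : ℝ) with hL
  have hprime : ∀ k, Nat.Prime (Nat.nth Nat.Prime k) := fun k => Nat.prime_nth_prime k
  have hmono : StrictMono (Nat.nth Nat.Prime) := Nat.nth_strictMono Nat.infinite_setOfPred_prime
  have hL0 : 0 < L := Real.log_pos (by exact_mod_cast (hprime N).one_lt)
  have hlogpos : ∀ k, 0 < Real.log ((Nat.nth Nat.Prime k : ℕ) : ℝ) := fun k =>
    Real.log_pos (by exact_mod_cast (hprime k).one_lt)
  have hlogmono : ∀ k l, k < l → Real.log ((Nat.nth Nat.Prime k : ℕ) : ℝ) <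
      Real.log ((Nat.nth Nat.Prime l : ℕ) : ℝ) := fun k l h =>
    Real.log_lt_log (by exact_mod_cast (hprime k).pos) (by exact_mod_cast hmono h)
  set w : ℝ := min (r / 2) (1 / (L + 1)) with hw
  have hw0 : 0 < w := lt_min (by linarith) (by positivity)
  have hwr : w < r := lt_of_le_of_lt (min_le_left _ _) (by linarith)
  have hwL : ∀ k, k < N → w * Real.log ((Nat.nth Nat.Prime k : ℕ) : ℝ) < 1 := by
    intro k hk
    have h1 : w ≤ 1 / (L + 1) := min_le_right _ _
    have h2 := hlogmono k N hk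
    calc w * Real.log ((Nat.nth Nat.Prime k : ℕ) : ℝ) ≤ 1 / (L + 1) * L := by
          apply mul_le_mul h1 h2.le (hlogpos k).le (by positivity)
      _ < 1 := by
          rw [one_div, inv_mul_lt_iff₀ (by linarith)]
          linarith
  refine ⟨w, hw0, hwr, N, fun j => ⟨Nat.nth Nat.Prime j, hprime j⟩, ?_, ?_⟩
  · intro a b h
    have h1 : Nat.nth Nat.Prime (a : ℕ) = Nat.nth Nat.Prime (b : ℕ) := congrArg Subtype.val h
    exact Fin.ext (hmono.injective h1)
  intro c hc
  set θ : Fin N → ℝ := fun j => w * (π / 2) * Real.log ((Nat.nth Nat.Prime (j : ℕ) : ℕ) : ℝ) with hθ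
  have hθ0 : ∀ j, 0 < θ j := fun j => by
    have := hlogpos (j : ℕ)
    have := Real.pi_pos
    positivity
  have hθ1 : ∀ j, θ j < π := fun j => by
    have h1 := hwL j j.2
    have h2 := Real.pi_pos
    have h3 : θ j = (w * Real.log ((Nat.nth Nat.Prime (j : ℕ) : ℕ) : ℝ)) * (π / 2) := by
      simp only [hθ]; ring
    rw [h3]
    nlinarith
  have hθinj : Function.Injective θ := by
    intro a b h
    by_contra hab
    have hpos : 0 < w * (π / 2) := by
      have := Real.pi_pos
      positivity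
    rcases lt_or_gt_of_ne (fun e => hab (Fin.ext e) : (a : ℕ) ≠ (b : ℕ)) with h1 | h1
    · exact absurd h (ne_of_lt (mul_lt_mul_of_pos_left (hlogmono _ _ h1) hpos))
    · exact absurd h (ne_of_gt (mul_lt_mul_of_pos_left (hlogmono _ _ h1) hpos))
  let z : Fin N → ℂ := fun j => cexp (((θ j : ℝ) : ℂ) * I)
  have hzinj : Function.Injective z := by
    intro a b h
    have h1 : (((θ a : ℝ) : ℂ) * I) = (((θ b : ℝ) : ℂ) * I) := by
      apply Complex.exp_inj_of_neg_pi_lt_of_le_pi _ _ _ _ h
      · simp; linarith [hθ0 a, Real.pi_pos]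
      · simp; linarith [hθ1 a]
      · simp; linarith [hθ0 b, Real.pi_pos]
      · simp; linarith [hθ1 b]
    have h2 : ((θ a : ℝ) : ℂ) = ((θ b : ℝ) : ℂ) := mul_right_cancel₀ Complex.I_ne_zero h1
    exact hθinj (by exact_mod_cast h2)
  let Q : Polynomial ℂ := ∑ i, C (c i) * ((Polynomial.X : Polynomial ℂ) ^ (2 * M + 2 + 2 * n i) - (Polynomial.X : Polynomial ℂ) ^ (2 * M - 2 * n i))
  have hQ0 : Q = 0 := by
    apply Polynomial.eq_zero_of_natDegree_lt_card_of_eval_eq_zero Q hzinj
    · intro j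
      have h1 : Q.eval (z j) = (z j) ^ (2 * M + 1) * (2 * I * ∑ i, c i *
          ((Real.sin (w * yy (n i) * Real.log (((⟨Nat.nth Nat.Prime (j : ℕ), hprime j⟩ : Nat.Primes) : ℕ) : ℝ)) : ℝ) : ℂ)) := by
        simp only [Q, eval_finsetSum, Finset.mul_sum]
        refine Finset.sum_congr rfl fun i _ => ?_
        simp only [eval_mul, eval_C, eval_sub, eval_pow, eval_X]
        obtain ⟨d, hd⟩ := Nat.exists_eq_add_of_le (hM i)
        have h3 : 2 * M - 2 * n i = 2 * d := by omega
        rw [h3, hd, key]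
        have h4 : ((Real.sin (w * yy (n i) * Real.log (((⟨Nat.nth Nat.Prime (j : ℕ), hprime j⟩ : Nat.Primes) : ℕ) : ℝ)) : ℝ) : ℂ)
            = Complex.sin ((2 * (n i : ℂ) + 1) * ((θ j : ℝ) : ℂ)) := by
          rw [Complex.ofReal_sin]
          congr 1
          simp only [hθ, yy]
          push_cast
          ring
        rw [h4]
        ring
      rw [h1, hc j, mul_zero, mul_zero]
    · rw [Fintype.card_fin, hN]
      refine Nat.lt_of_le_of_lt ?_ (Nat.lt_succ_self (4 * M + 2))
      rw [Polynomial.natDegree_le_iff_coeff_eq_zero]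
      intro k hk
      simp only [Q, finsetSum_coeff, coeff_C_mul, coeff_sub, coeff_X_pow]
      refine Finset.sum_eq_zero fun i _ => ?_
      have := hM i
      rw [if_neg (by omega), if_neg (by omega)]
      simp
  funext i0
  have h1 : Q.coeff (2 * M + 2 + 2 * n i0) = c i0 := by
    simp only [Q, finsetSum_coeff, coeff_C_mul, coeff_sub, coeff_X_pow]
    rw [Finset.sum_eq_single i0]
    · rw [if_pos rfl, if_neg (by omega)]
      ring
    · intro i _ hi
      have h2 : n i0 ≠ n i := fun h => hi (hn h).symm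
      rw [if_neg (by omega), if_neg (by omega)]
      ring
    · intro h
      exact absurd (Finset.mem_univ _) h
  rw [hQ0, coeff_zero] at h1
  exact h1.symm

end Pool.Agent.W879.AI.TRG
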